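import Pool.Agent.H998.LC.Constr

/-!
The exponent three.
-/

set_option autoImplicit false

open Polynomial Finset

namespace H998.LC

theorem size_factorial_le (a k : ℕ) :
    Nat.size (((2 ^ a) ^ k).factorial) ≤ a * k * (2 ^ a) ^ k + 1 := by
  rw [Nat.size_le]
  calc ((2 ^ a) ^ k).factorial ≤ ((2 ^ a) ^ k) ^ ((2 ^ a) ^ k) := Nat.factorial_le_pow _
    _ = 2 ^ (a * k * (2 ^ a) ^ k) := by
        rw [← pow_mul, ← pow_mul, ← pow_mul, mul_assoc]
    _ < 2 ^ (a * k * (2 ^ a) ^ k + 1) := Nat.pow_lt_pow_right (by norm_num) (by omega)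

theorem mul_pow_le (r k : ℕ) (hr : 2 ≤ r) : k * r ^ k ≤ 2 * (2 * r - 1) ^ k := by
  have h1 : k * 2 ^ k ≤ 2 * 3 ^ k := by
    induction k with
    | zero => simp
    | succ k ih =>
      rcases Nat.eq_zero_or_pos k with hk | hk
      · subst hk; norm_num
      · rcases Nat.lt_or_ge k 2 with hk2 | hk2
        · have : k = 1 := by omega
          subst this; norm_num
        · have h3 : (k + 1) * 2 ≤ k * 3 := by omega
          calc (k + 1) * 2 ^ (k + 1) = ((k + 1) * 2) * 2 ^ k := by ring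
            _ ≤ (k * 3) * 2 ^ k := Nat.mul_le_mul_right _ h3
            _ = 3 * (k * 2 ^ k) := by ring
            _ ≤ 3 * (2 * 3 ^ k) := Nat.mul_le_mul_left _ ih
            _ = 2 * 3 ^ (k + 1) := by ring
  have h2 : (3 * r) ^ k ≤ (2 * (2 * r - 1)) ^ k := Nat.pow_le_pow_left (by omega) k
  have h3 : 2 ^ k * (k * r ^ k) ≤ 2 ^ k * (2 * (2 * r - 1) ^ k) := by
    calc 2 ^ k * (k * r ^ k) = (k * 2 ^ k) * r ^ k := by ring
      _ ≤ (2 * 3 ^ k) * r ^ k := Nat.mul_le_mul_right _ h1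
      _ = 2 * (3 * r) ^ k := by rw [mul_pow]; ring
      _ ≤ 2 * (2 * (2 * r - 1)) ^ k := Nat.mul_le_mul_left _ h2
      _ = 2 ^ k * (2 * (2 * r - 1) ^ k) := by rw [mul_pow]; ring
  exact Nat.le_of_mul_le_mul_left h3 (by positivity)

/-- total cost (program plus degree) -/
theorem cost_le (a k : ℕ) (ha : 1 ≤ a) :
    2 * Nat.size (((2 ^ a) ^ k).factorial) + 3 * (2 ^ a) ^ k + hcost (2 ^ a) k + (2 ^ a) ^ k ≤
      (4 * a + 12 * 2 ^ a + 7) * (2 * 2 ^ a - 1) ^ k := by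
  have hr : 2 ≤ 2 ^ a := by
    calc 2 = 2 ^ 1 := by norm_num
      _ ≤ 2 ^ a := Nat.pow_le_pow_right (by norm_num) ha
  have h1 := size_factorial_le a k
  have h2 := mul_pow_le (2 ^ a) k hr
  have h3 := hcost_le (2 ^ a) hr k
  have h4 : (2 ^ a) ^ k ≤ (2 * 2 ^ a - 1) ^ k := Nat.pow_le_pow_left (by omega) k
  have h5 : 1 ≤ (2 ^ a) ^ k := Nat.one_le_pow _ _ (by omega)
  have h6 : a * k * (2 ^ a) ^ k ≤ a * (2 * (2 * 2 ^ a - 1) ^ k) := by
    rw [mul_assoc]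
    exact Nat.mul_le_mul_left _ h2
  have h7 : (4 * a + 12 * 2 ^ a + 7) * (2 * 2 ^ a - 1) ^ k =
      2 * (a * (2 * (2 * 2 ^ a - 1) ^ k)) + (12 * 2 ^ a + 1) * (2 * 2 ^ a - 1) ^ k +
        6 * (2 * 2 ^ a - 1) ^ k := by ring
  rw [h7]
  have h8 : hcost (2 ^ a) k ≤ (12 * 2 ^ a + 1) * (2 * 2 ^ a - 1) ^ k := by omega
  omega

theorem exists_params (β : ℝ) (hβ0 : 0 ≤ β) (hβ : β < 3) (C : ℝ) :
    ∃ a k : ℕ, 1 ≤ a ∧ 1 ≤ k ∧
      C * ((2 * Nat.size (((2 ^ a) ^ k).factorial) + 3 * (2 ^ a) ^ k + hcost (2 ^ a) k +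
        (2 ^ a) ^ k : ℕ) : ℝ) ^ β <
        (((2 ^ a) ^ k * ((2 ^ a) ^ k - 1) * (2 ^ a) ^ k : ℕ) : ℝ) := by
  obtain ⟨a, ha⟩ := exists_nat_gt (β / (3 - β))
  have h3β : 0 < 3 - β := by linarith
  have ha' : β < a * (3 - β) := by
    rwa [div_lt_iff₀ h3β] at ha
  have ha1 : 1 ≤ a := by
    rcases Nat.eq_zero_or_pos a with h | h
    · subst h
      simp at ha'
      linarith
    · exact h
  have hr : 2 ≤ 2 ^ a := by
    calc 2 = 2 ^ 1 := by norm_num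
      _ ≤ 2 ^ a := Nat.pow_le_pow_right (by norm_num) ha1
  set r : ℕ := 2 ^ a with hrdef
  set M : ℕ := 2 * r - 1 with hM
  set A : ℕ := 4 * a + 12 * r + 7 with hA
  have hMpos : (0 : ℝ) < M := by
    have : 0 < M := by omega
    exact_mod_cast this
  have hrpos : (0 : ℝ) < r := by
    have : 0 < r := by omega
    exact_mod_cast this
  have hApos : (0 : ℝ) < A := by
    have : 0 < A := by omega
    exact_mod_cast this
  have hMr : (M : ℝ) ^ β < (r : ℝ) ^ 3 := by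
    have h1 : (M : ℝ) ≤ (2 : ℝ) ^ ((a : ℝ) + 1) := by
      have : M ≤ 2 ^ (a + 1) := by
        rw [pow_succ, ← hrdef]
        omega
      calc (M : ℝ) ≤ ((2 ^ (a + 1) : ℕ) : ℝ) := by exact_mod_cast this
        _ = (2 : ℝ) ^ ((a : ℝ) + 1) := by
            push_cast
            rw [← Real.rpow_natCast]
            push_cast
            rfl
    calc (M : ℝ) ^ β ≤ ((2 : ℝ) ^ ((a : ℝ) + 1)) ^ β := Real.rpow_le_rpow hMpos.le h1 hβ0
      _ = (2 : ℝ) ^ (((a : ℝ) + 1) * β) := by rw [← Real.rpow_mul (by norm_num)]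
      _ < (2 : ℝ) ^ ((a : ℝ) * 3) := by
          apply Real.rpow_lt_rpow_of_exponent_lt (by norm_num)
          nlinarith
      _ = (r : ℝ) ^ 3 := by
          rw [hrdef, Real.rpow_mul (by norm_num), Real.rpow_natCast]
          push_cast
          exact_mod_cast rfl
  -- choose `k`
  set ρ : ℝ := (M : ℝ) ^ β / (r : ℝ) ^ 3 with hρ
  have hρ1 : ρ < 1 := by
    rw [hρ, div_lt_one (by positivity)]
    exact hMr
  have hρ0 : 0 ≤ ρ := by positivity
  have hδ : (0 : ℝ) < 1 / (2 * |C| * (A : ℝ) ^ β + 1) := by positivity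
  obtain ⟨k, hk⟩ := exists_pow_lt_of_lt_one hδ hρ1
  have hk1 : 1 ≤ k := by
    rcases Nat.eq_zero_or_pos k with h | h
    · exfalso
      subst h
      rw [pow_zero, lt_div_iff₀ (by positivity)] at hk
      have : 0 ≤ 2 * |C| * (A : ℝ) ^ β := by positivity
      linarith
    · exact h
  refine ⟨a, k, ha1, hk1, ?_⟩
  have hcost := cost_le a k ha1
  rw [← hrdef, ← hM, ← hA] at hcost
  set T : ℕ := 2 * Nat.size ((r ^ k).factorial) + 3 * r ^ k + LC.hcost r k + r ^ k with hT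
  have hT' : (T : ℝ) ≤ A * (M : ℝ) ^ k := by exact_mod_cast hcost
  have h1 : (T : ℝ) ^ β ≤ (A : ℝ) ^ β * ((M : ℝ) ^ β) ^ k := by
    calc (T : ℝ) ^ β ≤ (A * (M : ℝ) ^ k) ^ β := Real.rpow_le_rpow (by positivity) hT' hβ0
      _ = (A : ℝ) ^ β * ((M : ℝ) ^ k) ^ β := Real.mul_rpow hApos.le (by positivity)
      _ = (A : ℝ) ^ β * ((M : ℝ) ^ β) ^ k := by
          rw [← Real.rpow_natCast, ← Real.rpow_natCast, ← Real.rpow_mul hMpos.le,
            ← Real.rpow_mul hMpos.le, mul_comm (k : ℝ) β]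
  have h2 : (M : ℝ) ^ β = ρ * (r : ℝ) ^ 3 := by
    rw [hρ, div_mul_cancel₀ _ (by positivity)]
  rw [h2, mul_pow] at h1
  have h3 : 2 * |C| * (A : ℝ) ^ β * ρ ^ k < 1 := by
    rw [lt_div_iff₀ (by positivity)] at hk
    have : 0 ≤ ρ ^ k := by positivity
    nlinarith
  have hNk : 2 ≤ r ^ k := by
    calc 2 ≤ r := hr
      _ = r ^ 1 := (pow_one r).symm
      _ ≤ r ^ k := Nat.pow_le_pow_right (by omega) hk1
  have h4 : ((r : ℝ) ^ k) ^ 3 / 2 ≤ ((r ^ k * (r ^ k - 1) * r ^ k : ℕ) : ℝ) := by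
    have h5 : ((r ^ k - 1 : ℕ) : ℝ) = (r : ℝ) ^ k - 1 := by
      rw [Nat.cast_sub (by omega)]
      push_cast
      rfl
    rw [Nat.cast_mul, Nat.cast_mul, h5]
    push_cast
    have h6 : (2 : ℝ) ≤ (r : ℝ) ^ k := by exact_mod_cast hNk
    nlinarith [mul_nonneg (mul_nonneg (show (0 : ℝ) ≤ (r : ℝ) ^ k by linarith)
      (show (0 : ℝ) ≤ (r : ℝ) ^ k by linarith)) (show (0 : ℝ) ≤ (r : ℝ) ^ k - 2 by linarith)]
  have hR : 0 < ((r : ℝ) ^ k) ^ 3 := by positivity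
  have h5 : |C| * (T : ℝ) ^ β < ((r : ℝ) ^ k) ^ 3 / 2 := by
    calc |C| * (T : ℝ) ^ β ≤ |C| * ((A : ℝ) ^ β * (ρ ^ k * ((r : ℝ) ^ 3) ^ k)) :=
          mul_le_mul_of_nonneg_left h1 (abs_nonneg _)
      _ = (2 * |C| * (A : ℝ) ^ β * ρ ^ k) * (((r : ℝ) ^ k) ^ 3 / 2) := by
          rw [← pow_mul, ← pow_mul, mul_comm 3 k]; ring
      _ < 1 * (((r : ℝ) ^ k) ^ 3 / 2) := by
          apply mul_lt_mul_of_pos_right h3
          positivity
      _ = _ := one_mul _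
  have h6 : C * (T : ℝ) ^ β ≤ |C| * (T : ℝ) ^ β :=
    mul_le_mul_of_nonneg_right (le_abs_self C) (by positivity)
  linarith

/-- the exponent three -/
theorem exponent_three (K : Type*) [Field K] [CharZero K] (β : ℝ) (hβ : β < 3) (C : ℝ) :
    ∃ (L : List K[X]) (d : ℕ) (f : K[X]), Valid (inp K) L ∧ (f ∈ inp K ∨ f ∈ L) ∧ f ≠ 0 ∧ 1 ≤ d ∧
      C * ((L.length + d : ℕ) : ℝ) ^ β <
        ({p : K[X] | p.Monic ∧ Irreducible p ∧ p ∣ f ∧ p.natDegree ≤ d}.ncard : ℝ) := by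
  obtain ⟨a, k, ha, hk, h⟩ := exists_params (max β 0) (le_max_right _ _)
    (max_lt hβ (by norm_num)) |C|
  set N := (2 ^ a) ^ k with hN
  have hr : 2 ≤ 2 ^ a := by
    calc 2 = 2 ^ 1 := by norm_num
      _ ≤ 2 ^ a := Nat.pow_le_pow_right (by norm_num) ha
  have hNpos : 1 ≤ N := Nat.one_le_pow _ _ (by omega)
  have hq : ((2 : K) ^ (N.factorial)) ≠ 0 := pow_ne_zero _ two_ne_zero
  obtain ⟨L, hL1, hL2, hL3⟩ := can_ff ((2 : K) ^ (N.factorial)) (2 ^ a) k N.factorial hr []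
    Valid.nil (by simp)
  rw [List.append_nil] at hL2 hL3
  refine ⟨L, N, ff ((2 : K) ^ (N.factorial)) N N.factorial, hL2, hL3 _ rfl,
    ff_ne_zero _ hq N _ hNpos N.factorial_pos, hNpos, ?_⟩
  have hcnt := count_ff K N N hNpos
  have h1 : (1 : ℝ) ≤ ((L.length + N : ℕ) : ℝ) := by
    have : 1 ≤ L.length + N := by omega
    exact_mod_cast this
  have h2 : ((L.length + N : ℕ) : ℝ) ≤
      ((2 * Nat.size (N.factorial) + 3 * N + hcost (2 ^ a) k + N : ℕ) : ℝ) := by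
    have : L.length + N ≤ 2 * Nat.size (N.factorial) + 3 * N + hcost (2 ^ a) k + N := by omega
    exact_mod_cast this
  calc C * ((L.length + N : ℕ) : ℝ) ^ β ≤ |C| * ((L.length + N : ℕ) : ℝ) ^ β :=
        mul_le_mul_of_nonneg_right (le_abs_self C) (by positivity)
    _ ≤ |C| * ((L.length + N : ℕ) : ℝ) ^ (max β 0) := by
        apply mul_le_mul_of_nonneg_left _ (abs_nonneg _)
        exact Real.rpow_le_rpow_of_exponent_le h1 (le_max_left _ _)
    _ ≤ |C| * ((2 * Nat.size (N.factorial) + 3 * N + hcost (2 ^ a) k + N : ℕ) : ℝ) ^ (max β 0) := by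
        apply mul_le_mul_of_nonneg_left _ (abs_nonneg _)
        exact Real.rpow_le_rpow (by positivity) h2 (le_max_right _ _)
    _ < ((N * (N - 1) * N : ℕ) : ℝ) := h
    _ ≤ _ := by exact_mod_cast hcnt

end H998.LC
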