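import Mathlib

/-!
Scaled cyclotomic polynomials and the number of low degree factors.
-/

set_option autoImplicit false

open Polynomial

namespace H998.LC

theorem scaleRoots_scaleRoots_inv (p : ℚ[X]) (c : ℚ) (hc : c ≠ 0) :
    (p.scaleRoots c).scaleRoots c⁻¹ = p := by
  rw [← scaleRoots_mul, mul_inv_cancel₀ hc, scaleRoots_one]

theorem irr_scale (p : ℚ[X]) (hp : Irreducible p) (c : ℚ) (hc : c ≠ 0) :
    Irreducible (p.scaleRoots c) := by
  constructor
  · intro hu
    apply hp.not_isUnit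
    rw [Polynomial.isUnit_iff_degree_eq_zero] at hu ⊢
    rwa [degree_scaleRoots] at hu
  · intro a b hab
    have h1 : p = a.scaleRoots c⁻¹ * b.scaleRoots c⁻¹ := by
      rw [← mul_scaleRoots_of_noZeroDivisors, ← hab, scaleRoots_scaleRoots_inv p c hc]
    rcases hp.isUnit_or_isUnit h1 with h | h
    · left
      rw [Polynomial.isUnit_iff_degree_eq_zero] at h ⊢
      rwa [degree_scaleRoots] at h
    · right
      rw [Polynomial.isUnit_iff_degree_eq_zero] at h ⊢
      rwa [degree_scaleRoots] at h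

/-- the polynomial whose roots are `2 ^ e` times the primitive `m`-th roots of unity -/
noncomputable def PP (e m : ℕ) : ℚ[X] := (cyclotomic m ℚ).scaleRoots (2 ^ e)

theorem PP_irr (e m : ℕ) (hm : 1 ≤ m) : Irreducible (PP e m) :=
  irr_scale _ (cyclotomic.irreducible_rat (by omega)) _ (by positivity)

theorem PP_monic (e m : ℕ) : (PP e m).Monic :=
  (monic_scaleRoots_iff _).2 (cyclotomic.monic _ _)

theorem PP_natDegree (e m : ℕ) : (PP e m).natDegree = m.totient := by
  rw [PP, natDegree_scaleRoots, natDegree_cyclotomic]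

theorem PP_coeff_zero (e m : ℕ) (hm : 1 ≤ m) : |(PP e m).coeff 0| = (2 ^ e) ^ m.totient := by
  rw [PP, coeff_scaleRoots, natDegree_cyclotomic, Nat.sub_zero, abs_mul]
  have h1 : |(cyclotomic m ℚ).coeff 0| = 1 := by
    rcases Nat.eq_or_lt_of_le hm with h | h
    · subst h
      simp
    · rw [cyclotomic_coeff_zero ℚ h]
      simp
  rw [h1, one_mul, abs_of_nonneg (by positivity)]

theorem PP_inj {e m e' m' : ℕ} (hm : 1 ≤ m) (hm' : 1 ≤ m') (h : PP e m = PP e' m') :
    e = e' ∧ m = m' := by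
  have hd : m.totient = m'.totient := by
    rw [← PP_natDegree e m, ← PP_natDegree e' m', h]
  have hc := PP_coeff_zero e m hm
  rw [h, PP_coeff_zero e' m' hm', ← hd] at hc
  have hpos : m.totient ≠ 0 := by
    have := Nat.totient_pos.2 (show 0 < m by omega)
    omega
  have h2 : (2 : ℚ) ^ e' = 2 ^ e := (pow_left_inj₀ (by positivity) (by positivity) hpos).1 hc
  have h3 : e' = e := pow_right_injective₀ (a := (2 : ℚ)) (by norm_num) (by norm_num) h2
  subst h3
  refine ⟨rfl, ?_⟩
  have h4 := congrArg (fun p => p.scaleRoots ((2 : ℚ) ^ e')⁻¹) h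
  simp only [PP] at h4
  rw [scaleRoots_scaleRoots_inv _ _ (by positivity), scaleRoots_scaleRoots_inv _ _ (by positivity)]
    at h4
  exact cyclotomic_injective h4

theorem PP_dvd (e m n : ℕ) (hmn : m ∣ n) (hn : 1 ≤ n) :
    PP e m ∣ X ^ n - C (((2 : ℚ) ^ e) ^ n) := by
  have h1 : cyclotomic m ℚ ∣ X ^ n - 1 := by
    obtain ⟨d, rfl⟩ := hmn
    refine (cyclotomic.dvd_X_pow_sub_one m ℚ).trans ?_
    have := sub_one_dvd_pow_sub_one (X ^ m : ℚ[X]) d
    rwa [← pow_mul] at this
  have h2 := scaleRoots_dvd _ _ (r := (2 : ℚ) ^ e) h1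
  have h3 : (X ^ n - 1 : ℚ[X]).scaleRoots (2 ^ e) = X ^ n - C (((2 : ℚ) ^ e) ^ n) := by
    have hdeg : (X ^ n - 1 : ℚ[X]).natDegree = n := natDegree_X_pow_sub_C (r := (1 : ℚ))
    ext i
    rw [coeff_scaleRoots, hdeg]
    simp only [coeff_sub, coeff_X_pow, coeff_one, coeff_C]
    rcases Nat.eq_zero_or_pos i with hi | hi
    · subst hi
      simp
      rw [if_neg (by omega)]
      simp
    · rw [if_neg (show ¬ i = 0 by omega), if_neg (show ¬ i = 0 by omega)]
      by_cases hin : i = n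
      · subst hin
        simp
      · simp [hin]
  rw [h3] at h2
  exact h2

theorem finite_factors {K : Type*} [Field K] (f : K[X]) (hf : f ≠ 0) (d : ℕ) :
    {p : K[X] | p.Monic ∧ Irreducible p ∧ p ∣ f ∧ p.natDegree ≤ d}.Finite := by
  classical
  apply (UniqueFactorizationMonoid.normalizedFactors f).toFinset.finite_toSet.subset
  rintro p ⟨h1, h2, h3, _⟩
  simp only [Finset.mem_coe, Multiset.mem_toFinset]
  rw [UniqueFactorizationMonoid.mem_normalizedFactors_iff' hf]
  exact ⟨h2, h1.normalize_eq_self, h3⟩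

theorem count {K : Type*} [Field K] [CharZero K] (f : K[X]) (hf : f ≠ 0) (E D : ℕ)
    (h : ∀ e ∈ Finset.Icc 1 E, ∀ m ∈ Finset.Icc 1 D, (PP e m).map (algebraMap ℚ K) ∣ f) :
    E * D ≤ {p : K[X] | p.Monic ∧ Irreducible p ∧ p ∣ f ∧ p.natDegree ≤ D}.ncard := by
  classical
  have hex : ∀ x : ℕ × ℕ, ∃ p : K[X], x ∈ Finset.Icc 1 E ×ˢ Finset.Icc 1 D →
      p.Monic ∧ Irreducible p ∧ p ∣ (PP x.1 x.2).map (algebraMap ℚ K) := by
    intro x
    by_cases hx : x ∈ Finset.Icc 1 E ×ˢ Finset.Icc 1 D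
    · rw [Finset.mem_product, Finset.mem_Icc, Finset.mem_Icc] at hx
      have hmon := (PP_monic x.1 x.2).map (algebraMap ℚ K)
      have hdeg : ((PP x.1 x.2).map (algebraMap ℚ K)).natDegree ≠ 0 := by
        rw [(PP_monic x.1 x.2).natDegree_map, PP_natDegree]
        have := Nat.totient_pos.2 (show 0 < x.2 by omega)
        omega
      have hnu : ¬ IsUnit ((PP x.1 x.2).map (algebraMap ℚ K)) := by
        intro hu
        exact hdeg (natDegree_eq_zero_of_isUnit hu)
      obtain ⟨p, hp, hpd⟩ := WfDvdMonoid.exists_irreducible_factor hnu hmon.ne_zero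
      refine ⟨normalize p, fun _ => ⟨monic_normalize hp.ne_zero, ?_, ?_⟩⟩
      · exact (normalize_associated p).symm.irreducible hp
      · exact (normalize_associated p).dvd.trans hpd
    · exact ⟨1, fun h' => absurd h' hx⟩
  choose g hg using hex
  have hinj : Set.InjOn g (Finset.Icc 1 E ×ˢ Finset.Icc 1 D : Finset (ℕ × ℕ)) := by
    intro x hx y hy hxy
    have hx' := hx
    have hy' := hy
    rw [Finset.mem_coe] at hx hy
    rw [Finset.mem_coe, Finset.mem_product, Finset.mem_Icc, Finset.mem_Icc] at hx' hy'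
    by_contra hne
    have hPne : PP x.1 x.2 ≠ PP y.1 y.2 := by
      intro h1
      obtain ⟨h2, h3⟩ := PP_inj (by omega) (by omega) h1
      exact hne (Prod.ext h2 h3)
    have hcop : IsCoprime (PP x.1 x.2) (PP y.1 y.2) := by
      rcases (PP_irr x.1 x.2 (by omega)).isCoprime_or_dvd (PP y.1 y.2) with h1 | h1
      · exact h1
      · exfalso
        have h2 := (PP_irr x.1 x.2 (by omega)).associated_of_dvd (PP_irr y.1 y.2 (by omega)) h1
        exact hPne (eq_of_monic_of_associated (PP_monic _ _) (PP_monic _ _) h2)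
    have hcop2 := hcop.map (mapRingHom (algebraMap ℚ K))
    obtain ⟨_, hirr, hd1⟩ := hg x hx
    obtain ⟨_, _, hd2⟩ := hg y hy
    rw [← hxy] at hd2
    exact hirr.not_isUnit (hcop2.isUnit_of_dvd' hd1 hd2)
  have hcard : E * D = ((Finset.Icc 1 E ×ˢ Finset.Icc 1 D).image g).card := by
    rw [Finset.card_image_of_injOn hinj, Finset.card_product]
    simp
  rw [hcard, ← Set.ncard_coe_finset]
  apply Set.ncard_le_ncard _ (finite_factors f hf D)
  intro p hp
  rw [Finset.mem_coe, Finset.mem_image] at hp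
  obtain ⟨x, hx, rfl⟩ := hp
  obtain ⟨h1, h2, h3⟩ := hg x hx
  rw [Finset.mem_product] at hx
  refine ⟨h1, h2, h3.trans (h x.1 hx.1 x.2 hx.2), ?_⟩
  have hmon := (PP_monic x.1 x.2).map (algebraMap ℚ K)
  calc (g x).natDegree ≤ ((PP x.1 x.2).map (algebraMap ℚ K)).natDegree :=
        natDegree_le_of_dvd h3 hmon.ne_zero
    _ = x.2.totient := by rw [(PP_monic x.1 x.2).natDegree_map, PP_natDegree]
    _ ≤ x.2 := Nat.totient_le _
    _ ≤ D := (Finset.mem_Icc.1 hx.2).2

end H998.LC
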