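import Pool.Agent.H998.LC.Hankel
import Pool.Agent.H998.LC.Cyc

/-!
Polynomials of small straight-line complexity with many factors of small degree.
-/

set_option autoImplicit false

open Polynomial Finset

namespace H998.LC

/-- the free inputs: the variable and the constants -/
def inp (K : Type*) [Field K] : Set K[X] := {X} ∪ Set.range C

section

variable {K : Type*} [Field K]

theorem C_mem_inp (c : K) : algebraMap K K[X] c ∈ inp K := Or.inr ⟨c, rfl⟩

theorem one_mem_inp : (1 : K[X]) ∈ inp K := Or.inr ⟨1, by simp⟩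

theorem X_mem_inp : (X : K[X]) ∈ inp K := Or.inl rfl

/-- the polynomial with roots `q ^ (N * i)`, `1 ≤ i < N` -/
noncomputable def GG (q : K) (N : ℕ) : K[X] := ∏ i ∈ range (N - 1), (X - C (q ^ (N * (i + 1))))

theorem GG_natDegree (q : K) (N : ℕ) : (GG q N).natDegree = N - 1 := by
  rw [GG, natDegree_finsetProd_X_sub_C_eq_card]
  simp

theorem choose_add_two (m j : ℕ) : (m + j).choose 2 = m.choose 2 + j.choose 2 + m * j := by
  induction j with
  | zero => simp
  | succ j ih =>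
    rw [← add_assoc, Nat.choose_succ_succ' (m + j) 1, ih, Nat.choose_succ_succ' j 1]
    simp only [Nat.choose_one_right]
    ring

/-- the factors of the polynomial, in the form given by the Hankel product -/
noncomputable def zz (q : K) (N n0 j : ℕ) : K[X] :=
  ∑ m ∈ range N, algebraMap K K[X] (q ^ ((m + j).choose 2)) *
    (algebraMap K K[X] ((GG q N).coeff m * (q ^ (m.choose 2))⁻¹) * (X ^ n0) ^ m)

theorem zz_eq (q : K) (hq : q ≠ 0) (N n0 j : ℕ) (hN : 1 ≤ N) :
    zz q N n0 j = C (q ^ (j.choose 2)) *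
      ∏ i ∈ range (N - 1), (C (q ^ j) * X ^ n0 - C (q ^ (N * (i + 1)))) := by
  have h1 : (GG q N).comp (C (q ^ j) * X ^ n0) =
      ∏ i ∈ range (N - 1), (C (q ^ j) * X ^ n0 - C (q ^ (N * (i + 1)))) := by
    rw [GG, Polynomial.prod_comp]
    simp
  have h2 : (GG q N).comp (C (q ^ j) * X ^ n0) =
      ∑ m ∈ range N, C ((GG q N).coeff m) * (C (q ^ j) * X ^ n0) ^ m := by
    rw [comp, eval₂_eq_sum_range' _ (show (GG q N).natDegree < N by rw [GG_natDegree]; omega)]
  rw [← h1, h2, zz, Finset.mul_sum]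
  apply Finset.sum_congr rfl
  intro m _
  rw [choose_add_two]
  simp only [← C_eq_algebraMap, mul_pow, ← C_pow]
  have h3 : q ^ (m.choose 2 + j.choose 2 + m * j) * ((GG q N).coeff m * (q ^ (m.choose 2))⁻¹) =
      q ^ (j.choose 2) * ((GG q N).coeff m * (q ^ j) ^ m) := by
    rw [pow_add, pow_add, ← pow_mul, mul_comm j m]
    have : q ^ (m.choose 2) ≠ 0 := pow_ne_zero _ hq
    field_simp
  calc C (q ^ (m.choose 2 + j.choose 2 + m * j)) *
        (C ((GG q N).coeff m * (q ^ (m.choose 2))⁻¹) * (X ^ n0) ^ m)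
      = C (q ^ (m.choose 2 + j.choose 2 + m * j) *
          ((GG q N).coeff m * (q ^ (m.choose 2))⁻¹)) * (X ^ n0) ^ m := by
        rw [C_mul (a := q ^ (m.choose 2 + j.choose 2 + m * j))]; ring
    _ = C (q ^ (j.choose 2) * ((GG q N).coeff m * (q ^ j) ^ m)) * (X ^ n0) ^ m := by rw [h3]
    _ = _ := by
        rw [C_mul, C_mul]; ring

/-- the polynomial -/
noncomputable def ff (q : K) (N n0 : ℕ) : K[X] := ∏ j ∈ range N, zz q N n0 j

theorem ff_ne_zero (q : K) (hq : q ≠ 0) (N n0 : ℕ) (hN : 1 ≤ N) (hn0 : 1 ≤ n0) :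
    ff q N n0 ≠ 0 := by
  rw [ff, Finset.prod_ne_zero_iff]
  intro j _
  rw [zz_eq q hq N n0 j hN]
  refine mul_ne_zero (C_ne_zero.2 (pow_ne_zero _ hq)) ?_
  rw [Finset.prod_ne_zero_iff]
  intro i _ h
  have h1 := congrArg (fun p => p.coeff n0) h
  simp only [coeff_sub, coeff_C_mul, coeff_X_pow, if_true, coeff_C, coeff_zero] at h1
  rw [if_neg (by omega)] at h1
  simp at h1
  exact hq h1.1

theorem dvd_ff (q : K) (hq : q ≠ 0) (N n0 e : ℕ) (hN : 1 ≤ N) (he : 1 ≤ e)
    (heN : e ≤ N * (N - 1)) : (X ^ n0 - C (q ^ e)) ∣ ff q N n0 := by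
  obtain ⟨t, ht1, ht2, ht3, ht4⟩ : ∃ t, 1 ≤ t ∧ t ≤ N - 1 ∧ e ≤ N * t ∧ N * t ≤ e + (N - 1) := by
    refine ⟨(e + N - 1) / N, ?_, ?_, ?_, ?_⟩
    · rw [Nat.le_div_iff_mul_le (by omega)]
      omega
    · rw [← Nat.lt_succ_iff, Nat.div_lt_iff_lt_mul (by omega)]
      have : (N - 1).succ * N = N * (N - 1) + N := by
        rw [Nat.succ_mul]; ring
      omega
    · have := Nat.lt_mul_div_succ (e + N - 1) (show 0 < N by omega)
      rw [Nat.mul_add, Nat.mul_one] at this
      omega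
    · have := Nat.mul_div_le (e + N - 1) N
      omega
  have hj : N * t - e < N := by omega
  refine dvd_trans ?_ (Finset.dvd_prod_of_mem _ (Finset.mem_range.2 hj))
  rw [zz_eq q hq N n0 _ hN]
  apply dvd_mul_of_dvd_right
  have hi : t - 1 ∈ range (N - 1) := by
    rw [Finset.mem_range]; omega
  refine dvd_trans ?_ (Finset.dvd_prod_of_mem _ hi)
  refine ⟨C (q ^ (N * t - e)), ?_⟩
  have h1 : t - 1 + 1 = t := by omega
  rw [h1]
  have h2 : q ^ (N * t) = q ^ e * q ^ (N * t - e) := by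
    rw [← pow_add]
    congr 1
    omega
  rw [h2, C_mul]
  ring

/-- the cost -/
theorem can_ff [CharZero K] (q : K) (r k n0 : ℕ) (hr : 2 ≤ r) :
    Can (inp K) (2 * Nat.size n0 + 3 * r ^ k + hcost r k) ∅ {ff q (r ^ k) n0} := by
  set N := r ^ k with hN
  have hNpos : 1 ≤ N := Nat.one_le_pow _ _ (by omega)
  have s1 : Can (inp K) (2 * Nat.size n0) ∅ {(X : K[X]) ^ n0} :=
    Can.pow n0 X (Or.inl X_mem_inp) one_mem_inp
  have s2 : Can (inp K) N {(X : K[X]) ^ n0} ((fun i : ℕ => ((X : K[X]) ^ n0) ^ i) '' {i | i ≤ N}) :=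
    Can.powers N _ (Or.inr rfl) one_mem_inp
  have s3 : Can (inp K) (N * 1) ((fun i : ℕ => ((X : K[X]) ^ n0) ^ i) '' {i | i ≤ N})
      (⋃ m ∈ range N, {algebraMap K K[X] ((GG q N).coeff m * (q ^ (m.choose 2))⁻¹) *
        (X ^ n0) ^ m}) := by
    have := Can.many (B := inp K) (T := 1)
      (I := ((fun i : ℕ => ((X : K[X]) ^ n0) ^ i) '' {i | i ≤ N})) (range N)
      (fun m => {algebraMap K K[X] ((GG q N).coeff m * (q ^ (m.choose 2))⁻¹) * (X ^ n0) ^ m})
      (by
        intro m hm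
        apply Can.mul (Or.inl (C_mem_inp _))
        right
        exact ⟨m, (Finset.mem_range.1 hm).le, rfl⟩)
    rwa [Finset.card_range] at this
  have s4 := Can.hankel (R := K[X]) (B := inp K) C_mem_inp r hr k (fun i => q ^ (i.choose 2))
    (fun m => algebraMap K K[X] ((GG q N).coeff m * (q ^ (m.choose 2))⁻¹) * (X ^ n0) ^ m)
    (⋃ m ∈ range N, {algebraMap K K[X] ((GG q N).coeff m * (q ^ (m.choose 2))⁻¹) *
        (X ^ n0) ^ m}) (by
      intro m hm
      right
      simp only [Set.mem_iUnion, exists_prop, Set.mem_singleton_iff]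
      exact ⟨m, Finset.mem_range.2 hm, rfl⟩)
  have s5 : Can (inp K) N {y | ∃ j < r ^ k, y = zz q N n0 j} {∏ j ∈ range N, zz q N n0 j} := by
    apply Can.prod N _ _ one_mem_inp
    intro j hj
    exact Or.inr ⟨j, hj, rfl⟩
  exact (((s1.trans s2).trans s3).trans s4 |>.trans s5).mono (by omega) subset_rfl subset_rfl

end

/-- number of factors of small degree -/
theorem count_ff (K : Type*) [Field K] [CharZero K] (N D : ℕ) (hN : 1 ≤ N) :
    N * (N - 1) * D ≤ {p : K[X] | p.Monic ∧ Irreducible p ∧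
      p ∣ ff ((2 : K) ^ (D.factorial)) N D.factorial ∧ p.natDegree ≤ D}.ncard := by
  have hq : ((2 : K) ^ (D.factorial)) ≠ 0 := pow_ne_zero _ two_ne_zero
  apply count _ (ff_ne_zero _ hq N _ hN D.factorial_pos)
  intro e he m hm
  rw [Finset.mem_Icc] at he hm
  refine dvd_trans ?_ (dvd_ff _ hq N D.factorial e hN he.1 he.2)
  have h1 := PP_dvd e m D.factorial (Nat.dvd_factorial (by omega) hm.2) D.factorial_pos
  have h2 := Polynomial.map_dvd (algebraMap ℚ K) h1
  rw [Polynomial.map_sub, Polynomial.map_pow, map_X, map_C] at h2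
  have h3 : (algebraMap ℚ K) (((2 : ℚ) ^ e) ^ D.factorial) = ((2 : K) ^ D.factorial) ^ e := by
    rw [map_pow, map_pow, map_ofNat, ← pow_mul, ← pow_mul, mul_comm]
  rw [h3] at h2
  exact h2

end H998.LC
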