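import Pool.Agent.H998.LC.Asym

/-!
From lists to sequences of computed elements.
-/

set_option autoImplicit false

open Polynomial

namespace H998.LC

theorem valid_fun {R : Type*} [CommRing R] {B : Set R} {L : List R} (h : Valid B L) :
    ∃ g : ℕ → R, (∀ i, i < L.length → ∃ a b : R, (a ∈ B ∨ ∃ j, j < i ∧ a = g j) ∧
      (b ∈ B ∨ ∃ j, j < i ∧ b = g j) ∧ (g i = a + b ∨ g i = a - b ∨ g i = a * b)) ∧
      ∀ x ∈ L, ∃ j, j < L.length ∧ x = g j := by
  classical
  have key : ∀ (L : List R) (c : R), (∃ a b : R, (a ∈ B ∨ a ∈ L) ∧ (b ∈ B ∨ b ∈ L) ∧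
      (c = a + b ∨ c = a - b ∨ c = a * b)) →
      (∃ g : ℕ → R, (∀ i, i < L.length → ∃ a b : R, (a ∈ B ∨ ∃ j, j < i ∧ a = g j) ∧
      (b ∈ B ∨ ∃ j, j < i ∧ b = g j) ∧ (g i = a + b ∨ g i = a - b ∨ g i = a * b)) ∧
      ∀ x ∈ L, ∃ j, j < L.length ∧ x = g j) →
      (∃ g : ℕ → R, (∀ i, i < (c :: L).length → ∃ a b : R, (a ∈ B ∨ ∃ j, j < i ∧ a = g j) ∧
      (b ∈ B ∨ ∃ j, j < i ∧ b = g j) ∧ (g i = a + b ∨ g i = a - b ∨ g i = a * b)) ∧
      ∀ x ∈ (c :: L), ∃ j, j < (c :: L).length ∧ x = g j) := by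
    rintro L c ⟨a, b, ha, hb, hc⟩ ⟨g, h1, h2⟩
    obtain ⟨g', hold, hnew⟩ : ∃ g' : ℕ → R, (∀ j, j < L.length → g' j = g j) ∧
        g' L.length = c := by
      refine ⟨fun i => if i < L.length then g i else c, ?_, ?_⟩
      · intro j hj
        exact if_pos hj
      · exact if_neg (lt_irrefl _)
    refine ⟨g', ?_, ?_⟩
    · intro i hi
      rw [List.length_cons] at hi
      rcases Nat.lt_or_ge i L.length with hi' | hi'
      · obtain ⟨a', b', ha', hb', hg⟩ := h1 i hi'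
        refine ⟨a', b', ?_, ?_, ?_⟩
        · rcases ha' with h | ⟨j, hj, h⟩
          · exact Or.inl h
          · exact Or.inr ⟨j, hj, by rw [hold j (hj.trans hi')]; exact h⟩
        · rcases hb' with h | ⟨j, hj, h⟩
          · exact Or.inl h
          · exact Or.inr ⟨j, hj, by rw [hold j (hj.trans hi')]; exact h⟩
        · rw [hold i hi']
          exact hg
      · have : i = L.length := by omega
        subst this
        refine ⟨a, b, ?_, ?_, ?_⟩
        · rcases ha with h | h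
          · exact Or.inl h
          · obtain ⟨j, hj, h⟩ := h2 a h
            exact Or.inr ⟨j, hj, by rw [hold j hj]; exact h⟩
        · rcases hb with h | h
          · exact Or.inl h
          · obtain ⟨j, hj, h⟩ := h2 b h
            exact Or.inr ⟨j, hj, by rw [hold j hj]; exact h⟩
        · rw [hnew]
          exact hc
    · intro x hx
      rw [List.mem_cons] at hx
      rcases hx with hx | hx
      · refine ⟨L.length, by simp, ?_⟩
        rw [hnew]
        exact hx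
      · obtain ⟨j, hj, h⟩ := h2 x hx
        refine ⟨j, by rw [List.length_cons]; omega, ?_⟩
        rw [hold j hj]
        exact h
  induction h with
  | nil => exact ⟨fun _ => 0, by simp, by simp⟩
  | @add L a b _ ha hb ih => exact key L (a + b) ⟨a, b, ha, hb, Or.inl rfl⟩ ih
  | @sub L a b _ ha hb ih => exact key L (a - b) ⟨a, b, ha, hb, Or.inr (Or.inl rfl)⟩ ih
  | @mul L a b _ ha hb ih => exact key L (a * b) ⟨a, b, ha, hb, Or.inr (Or.inr rfl)⟩ ih

theorem exponent_three_fun (K : Type*) [Field K] [CharZero K] (β : ℝ) (hβ : β < 3) (C₀ : ℝ) :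
    ∃ (d n : ℕ) (f : K[X]), 1 ≤ d ∧ f ≠ 0 ∧
      (∃ g : ℕ → K[X],
        (∀ i, i < n → ∃ a b : K[X],
          (a = X ∨ (∃ c : K, a = C c) ∨ ∃ j, j < i ∧ a = g j) ∧
          (b = X ∨ (∃ c : K, b = C c) ∨ ∃ j, j < i ∧ b = g j) ∧
          (g i = a + b ∨ g i = a - b ∨ g i = a * b)) ∧
        (f = X ∨ (∃ c : K, f = C c) ∨ ∃ j, j < n ∧ f = g j)) ∧
      C₀ * ((n : ℝ) + (d : ℝ)) ^ β <
        ({p : K[X] | p.Monic ∧ Irreducible p ∧ p ∣ f ∧ p.natDegree ≤ d}.ncard : ℝ) := by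
  obtain ⟨L, d, f, hL, hf, hf0, hd, h⟩ := exponent_three K β hβ C₀
  obtain ⟨g, h1, h2⟩ := valid_fun hL
  have conv : ∀ (a : K[X]) (P : Prop), (a ∈ inp K ∨ P) → (a = X ∨ (∃ c : K, a = C c) ∨ P) := by
    intro a P h
    rcases h with (h | ⟨c, h⟩) | h
    · exact Or.inl h
    · exact Or.inr (Or.inl ⟨c, h.symm⟩)
    · exact Or.inr (Or.inr h)
  refine ⟨d, L.length, f, hd, hf0, ⟨g, ?_, ?_⟩, ?_⟩
  · intro i hi
    obtain ⟨a, b, ha, hb, hg⟩ := h1 i hi
    exact ⟨a, b, conv a _ ha, conv b _ hb, hg⟩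
  · apply conv
    rcases hf with h | h
    · exact Or.inl h
    · exact Or.inr (h2 f h)
  · push_cast at h
    exact h

end H998.LC
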