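import Pool.Agent.H998.LC.Prog

/-!
Fast multiplication by a constant Hankel matrix (transposed Toom-Cook).
-/

set_option autoImplicit false

open Finset

namespace H998.LC

/-- cost of the recursive algorithm -/
def hcost (r : ℕ) : ℕ → ℕ
  | 0 => 1
  | k + 1 => (2 * r - 1) * hcost r k + 4 * r * (2 * r - 1) * r ^ k

theorem hcost_le (r : ℕ) (hr : 2 ≤ r) (k : ℕ) :
    hcost r k + 12 * r * r ^ k ≤ (12 * r + 1) * (2 * r - 1) ^ k := by
  obtain ⟨s, rfl⟩ : ∃ s, r = s + 2 := ⟨r - 2, by omega⟩
  have e : 2 * (s + 2) - 1 = 2 * s + 3 := by omega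
  rw [e]
  induction k with
  | zero => simp [hcost]; omega
  | succ k ih =>
    have h1 : hcost (s + 2) (k + 1) =
        (2 * s + 3) * hcost (s + 2) k + 4 * (s + 2) * (2 * s + 3) * (s + 2) ^ k := by
      simp only [hcost, e]
    rw [h1]
    have h2 := Nat.mul_le_mul_left (2 * s + 3) ih
    have h3 : (12 * (s + 2) + 1) * (2 * s + 3) ^ (k + 1) =
        (2 * s + 3) * ((12 * (s + 2) + 1) * (2 * s + 3) ^ k) := by ring
    rw [h3]
    refine le_trans ?_ h2
    have h4 : 4 * (s + 2) * (2 * s + 3) * (s + 2) ^ k + 12 * (s + 2) * (s + 2) ^ (k + 1) ≤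
        (2 * s + 3) * (12 * (s + 2) * (s + 2) ^ k) := by
      have : 4 * (s + 2) * (2 * s + 3) + 12 * (s + 2) * (s + 2) ≤
          (2 * s + 3) * (12 * (s + 2)) := by nlinarith
      calc 4 * (s + 2) * (2 * s + 3) * (s + 2) ^ k + 12 * (s + 2) * (s + 2) ^ (k + 1)
          = (4 * (s + 2) * (2 * s + 3) + 12 * (s + 2) * (s + 2)) * (s + 2) ^ k := by ring
        _ ≤ ((2 * s + 3) * (12 * (s + 2))) * (s + 2) ^ k := Nat.mul_le_mul_right _ this
        _ = _ := by ring
    calc (2 * s + 3) * hcost (s + 2) k + 4 * (s + 2) * (2 * s + 3) * (s + 2) ^ k +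
          12 * (s + 2) * (s + 2) ^ (k + 1)
        = (2 * s + 3) * hcost (s + 2) k + (4 * (s + 2) * (2 * s + 3) * (s + 2) ^ k +
          12 * (s + 2) * (s + 2) ^ (k + 1)) := by ring
      _ ≤ (2 * s + 3) * hcost (s + 2) k + (2 * s + 3) * (12 * (s + 2) * (s + 2) ^ k) := by
          gcongr
      _ = (2 * s + 3) * (hcost (s + 2) k + 12 * (s + 2) * (s + 2) ^ k) := by ring

theorem sum_range_mul {M : Type*} [AddCommMonoid M] (r n : ℕ) (f : ℕ → M) :
    ∑ m ∈ range (r * n), f m = ∑ i ∈ range r, ∑ j ∈ range n, f (i * n + j) := by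
  induction r with
  | zero => simp
  | succ r ih =>
    rw [Nat.succ_mul, Finset.sum_range_add, ih, Finset.sum_range_succ]

/-- interpolation weights -/
theorem exists_weights (F : Type*) [Field F] [CharZero F] (n : ℕ) :
    ∃ β : ℕ → ℕ → F, ∀ c < n, ∀ i < n,
      ∑ l ∈ range n, β c l * (l : F) ^ i = if i = c then 1 else 0 := by
  classical
  have hinj : Function.Injective (fun l : Fin n => ((l : ℕ) : F)) := by
    intro a b h
    have h' : ((a : ℕ) : F) = ((b : ℕ) : F) := h
    have : (a : ℕ) = (b : ℕ) := by exact_mod_cast h'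
    exact Fin.ext this
  have hdet : (Matrix.vandermonde (fun l : Fin n => ((l : ℕ) : F))).det ≠ 0 :=
    Matrix.det_vandermonde_ne_zero_iff.2 hinj
  have hunit : IsUnit (Matrix.vandermonde (fun l : Fin n => ((l : ℕ) : F))).det :=
    isUnit_iff_ne_zero.2 hdet
  have hmul := Matrix.nonsing_inv_mul _ hunit
  refine ⟨fun c l => if h : c < n ∧ l < n then
    (Matrix.vandermonde (fun l : Fin n => ((l : ℕ) : F)))⁻¹ ⟨c, h.1⟩ ⟨l, h.2⟩ else 0, ?_⟩
  intro c hc i hi
  have h1 := congrFun (congrFun hmul ⟨c, hc⟩) ⟨i, hi⟩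
  rw [Matrix.mul_apply, Matrix.one_apply] at h1
  rw [Finset.sum_range]
  have h2 : (if (⟨c, hc⟩ : Fin n) = ⟨i, hi⟩ then (1 : F) else 0) = if i = c then 1 else 0 := by
    simp [eq_comm]
  rw [h2] at h1
  rw [← h1]
  apply Finset.sum_congr rfl
  intro l _
  simp [hc, Matrix.vandermonde_apply]

variable {F : Type*} [Field F] [CharZero F] {R : Type*} [CommRing R] [Algebra F R] {B : Set R}

theorem hankel_identity (r n : ℕ) (hr : 1 ≤ r) (β : ℕ → ℕ → F)
    (hβ : ∀ c < 2 * r - 1, ∀ i < 2 * r - 1,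
      ∑ l ∈ range (2 * r - 1), β c l * (l : F) ^ i = if i = c then 1 else 0)
    (b : ℕ → F) (a : ℕ → R) (j1 j0 : ℕ) (hj1 : j1 < r) :
    ∑ m ∈ range (r * n), algebraMap F R (b (m + (j1 * n + j0))) * a m =
      ∑ l ∈ range (2 * r - 1), algebraMap F R ((l : F) ^ j1) *
        ∑ m0 ∈ range n, algebraMap F R (∑ c ∈ range (2 * r - 1), β c l * b (c * n + (m0 + j0))) *
          ∑ m1 ∈ range r, algebraMap F R ((l : F) ^ m1) * a (m1 * n + m0) := by
  rw [sum_range_mul]
  have step : ∀ l ∈ range (2 * r - 1), algebraMap F R ((l : F) ^ j1) *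
        ∑ m0 ∈ range n, algebraMap F R (∑ c ∈ range (2 * r - 1), β c l * b (c * n + (m0 + j0))) *
          ∑ m1 ∈ range r, algebraMap F R ((l : F) ^ m1) * a (m1 * n + m0) =
      ∑ m1 ∈ range r, ∑ m0 ∈ range n, ∑ c ∈ range (2 * r - 1),
        algebraMap F R (b (c * n + (m0 + j0)) * (β c l * (l : F) ^ (m1 + j1))) *
          a (m1 * n + m0) := by
    intro l _
    rw [Finset.mul_sum]
    rw [Finset.sum_comm (s := range r) (t := range n)]
    apply Finset.sum_congr rfl
    intro m0 _
    rw [Finset.mul_sum, Finset.mul_sum]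
    apply Finset.sum_congr rfl
    intro m1 _
    rw [map_sum, Finset.sum_mul, Finset.mul_sum]
    apply Finset.sum_congr rfl
    intro c _
    simp only [map_mul, pow_add]
    ring
  rw [Finset.sum_congr rfl step]
  conv_rhs => rw [Finset.sum_comm]
  apply Finset.sum_congr rfl
  intro m1 hm1
  conv_rhs => rw [Finset.sum_comm]
  apply Finset.sum_congr rfl
  intro m0 _
  conv_rhs => rw [Finset.sum_comm]
  have hlt : m1 + j1 < 2 * r - 1 := by
    have := Finset.mem_range.1 hm1
    omega
  have h1 : ∀ c ∈ range (2 * r - 1), ∑ l ∈ range (2 * r - 1),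
      algebraMap F R (b (c * n + (m0 + j0)) * (β c l * (l : F) ^ (m1 + j1))) * a (m1 * n + m0) =
      if m1 + j1 = c then algebraMap F R (b (c * n + (m0 + j0))) * a (m1 * n + m0) else 0 := by
    intro c hc
    rw [← Finset.sum_mul, ← map_sum, ← Finset.mul_sum,
      hβ c (Finset.mem_range.1 hc) (m1 + j1) hlt]
    split_ifs <;> simp
  rw [Finset.sum_congr rfl h1]
  rw [Finset.sum_ite_eq]
  rw [if_pos (Finset.mem_range.2 hlt)]
  congr 3
  ring

theorem Can.hankel (hB : ∀ c : F, algebraMap F R c ∈ B) (r : ℕ) (hr : 2 ≤ r) :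
    ∀ (k : ℕ) (b : ℕ → F) (a : ℕ → R) (I : Set R), (∀ m < r ^ k, a m ∈ B ∨ a m ∈ I) →
      Can B (hcost r k) I
        {y | ∃ j < r ^ k, y = ∑ m ∈ range (r ^ k), algebraMap F R (b (m + j)) * a m} := by
  obtain ⟨β, hβ⟩ := exists_weights F (2 * r - 1)
  have hB0 : (0 : R) ∈ B := by
    have := hB 0
    rwa [map_zero] at this
  intro k
  induction k with
  | zero =>
    intro b a I ha
    have h1 : Can B 1 I {algebraMap F R (b 0) * a 0} :=
      Can.mul (Or.inl (hB _)) (ha 0 (by simp))
    refine h1.mono (by simp [hcost]) subset_rfl ?_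
    rintro y ⟨j, hj, rfl⟩
    have : j = 0 := by simpa using hj
    subst this
    simp
  | succ k ih =>
    intro b a I ha
    set n := r ^ k with hn
    -- step 1
    let A : ℕ → ℕ → R := fun l m0 => ∑ m1 ∈ range r, algebraMap F R ((l : F) ^ m1) * a (m1 * n + m0)
    have hA : ∀ p ∈ (range (2 * r - 1)) ×ˢ (range n), Can B (2 * r) I {A p.1 p.2} := by
      intro p hp
      rw [Finset.mem_product, Finset.mem_range, Finset.mem_range] at hp
      apply Can.lincomb r _ _ (fun i _ => hB _) _ hB0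
      intro i hi
      apply ha
      have h1 : i * n + p.2 < (i + 1) * n := by
        rw [Nat.add_mul]
        omega
      have h2 : (i + 1) * n ≤ r * n := Nat.mul_le_mul_right _ hi
      calc i * n + p.2 < r * n := by omega
        _ = r ^ (k + 1) := by rw [hn]; ring
    have s1 := Can.many _ _ hA
    rw [Finset.card_product, Finset.card_range, Finset.card_range] at s1
    -- step 2
    let bl : ℕ → ℕ → F := fun l i => ∑ c ∈ range (2 * r - 1), β c l * b (c * n + i)
    let Y : ℕ → ℕ → R := fun l j0 => ∑ m0 ∈ range n, algebraMap F R (bl l (m0 + j0)) * A l m0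
    have hY : ∀ l ∈ range (2 * r - 1), Can B (hcost r k)
        (⋃ p ∈ (range (2 * r - 1)) ×ˢ (range n), {A p.1 p.2}) {y | ∃ j0 < n, y = Y l j0} := by
      intro l hl
      apply ih (bl l) (A l)
      intro m hm
      right
      simp only [Set.mem_iUnion, exists_prop, Set.mem_singleton_iff]
      exact ⟨(l, m), Finset.mem_product.2 ⟨hl, Finset.mem_range.2 hm⟩, rfl⟩
    have s2 := Can.many _ _ hY
    rw [Finset.card_range] at s2
    -- step 3
    have hZ : ∀ p ∈ (range r) ×ˢ (range n), Can B (2 * (2 * r - 1))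
        (⋃ l ∈ range (2 * r - 1), {y | ∃ j0 < n, y = Y l j0})
        {∑ l ∈ range (2 * r - 1), algebraMap F R ((l : F) ^ p.1) * Y l p.2} := by
      intro p hp
      rw [Finset.mem_product, Finset.mem_range, Finset.mem_range] at hp
      apply Can.lincomb (2 * r - 1) (fun l => algebraMap F R ((l : F) ^ p.1))
        (fun l => Y l p.2) (fun i _ => hB _) _ hB0
      intro i hi
      right
      simp only [Set.mem_iUnion, exists_prop]
      exact ⟨i, Finset.mem_range.2 hi, p.2, hp.2, rfl⟩
    have s3 := Can.many _ _ hZ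
    rw [Finset.card_product, Finset.card_range, Finset.card_range] at s3
    refine ((s1.trans s2).trans s3).mono ?_ subset_rfl ?_
    · simp only [hcost]
      rw [← hn]
      apply le_of_eq
      ring
    · rintro y ⟨j, hj, rfl⟩
      have hnpos : 0 < n := by rw [hn]; positivity
      have hj1 : j / n < r := by
        apply Nat.div_lt_of_lt_mul
        rw [pow_succ, ← hn] at hj
        exact hj
      have hj0 : j % n < n := Nat.mod_lt _ hnpos
      simp only [Set.mem_iUnion, exists_prop, Set.mem_singleton_iff]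
      refine ⟨(j / n, j % n), Finset.mem_product.2 ⟨Finset.mem_range.2 hj1,
        Finset.mem_range.2 hj0⟩, ?_⟩
      have hid := hankel_identity r n (by omega) β hβ b a (j / n) (j % n) hj1
      have hj' : j / n * n + j % n = j := by
        rw [mul_comm]
        exact Nat.div_add_mod j n
      rw [hj'] at hid
      have hrn : r ^ (k + 1) = r * n := by rw [hn]; ring
      rw [hrn]
      exact hid

end H998.LC
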