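import Mathlib

/-!
Straight-line programs over a commutative ring, with a set `B` of free inputs.
-/

set_option autoImplicit false

namespace H998.LC

variable {R : Type*} [CommRing R]

/-- Straight-line programs over `B`: the list of the computed elements, the newest first. -/
inductive Valid (B : Set R) : List R → Prop
  | nil : Valid B []
  | add {L : List R} {a b : R} : Valid B L → (a ∈ B ∨ a ∈ L) → (b ∈ B ∨ b ∈ L) →
      Valid B ((a + b) :: L)
  | sub {L : List R} {a b : R} : Valid B L → (a ∈ B ∨ a ∈ L) → (b ∈ B ∨ b ∈ L) →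
      Valid B ((a - b) :: L)
  | mul {L : List R} {a b : R} : Valid B L → (a ∈ B ∨ a ∈ L) → (b ∈ B ∨ b ∈ L) →
      Valid B ((a * b) :: L)

/-- With `T` more steps one can compute all elements of `O` from those of `I`. -/
def Can (B : Set R) (T : ℕ) (I O : Set R) : Prop :=
  ∀ L, Valid B L → (∀ x ∈ I, x ∈ B ∨ x ∈ L) →
    ∃ L', L'.length ≤ T ∧ Valid B (L' ++ L) ∧ ∀ x ∈ O, x ∈ B ∨ x ∈ L' ++ L

variable {B : Set R}

theorem Can.refl (I : Set R) : Can B 0 I I := by
  intro L hL hI
  exact ⟨[], by simp, by simpa using hL, by simpa using hI⟩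

theorem Can.mono {T T' : ℕ} {I I' O O' : Set R} (h : Can B T I O) (hT : T ≤ T') (hI : I ⊆ I')
    (hO : O' ⊆ O) : Can B T' I' O' := by
  intro L hL hI'
  obtain ⟨L', h1, h2, h3⟩ := h L hL (fun x hx => hI' x (hI hx))
  exact ⟨L', h1.trans hT, h2, fun x hx => h3 x (hO hx)⟩

theorem Can.le {T T' : ℕ} {I O : Set R} (h : Can B T I O) (hT : T ≤ T') : Can B T' I O :=
  h.mono hT subset_rfl subset_rfl

/-- sequential composition -/
theorem Can.comp {T1 T2 : ℕ} {I O1 O2 : Set R} (h1 : Can B T1 I O1) (h2 : Can B T2 (I ∪ O1) O2) :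
    Can B (T1 + T2) I (O1 ∪ O2) := by
  intro L hL hI
  obtain ⟨L1, a1, a2, a3⟩ := h1 L hL hI
  obtain ⟨L2, b1, b2, b3⟩ := h2 (L1 ++ L) a2 (by
    intro x hx
    rcases hx with hx | hx
    · rcases hI x hx with h | h
      · exact Or.inl h
      · exact Or.inr (List.mem_append_right _ h)
    · exact a3 x hx)
  refine ⟨L2 ++ L1, by simp; omega, by rwa [List.append_assoc], ?_⟩
  intro x hx
  rcases hx with hx | hx
  · rcases a3 x hx with h | h
    · exact Or.inl h
    · right
      rw [List.append_assoc]
      exact List.mem_append_right _ h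
  · rcases b3 x hx with h | h
    · exact Or.inl h
    · right
      rw [List.append_assoc]
      exact h

theorem Can.trans {T1 T2 : ℕ} {I O1 O2 : Set R} (h1 : Can B T1 I O1) (h2 : Can B T2 O1 O2) :
    Can B (T1 + T2) I O2 :=
  (h1.comp (h2.mono le_rfl Set.subset_union_right subset_rfl)).mono le_rfl subset_rfl
    Set.subset_union_right

theorem Can.union {T1 T2 : ℕ} {I O1 O2 : Set R} (h1 : Can B T1 I O1) (h2 : Can B T2 I O2) :
    Can B (T1 + T2) I (O1 ∪ O2) :=
  h1.comp (h2.mono le_rfl Set.subset_union_left subset_rfl)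

theorem Can.add {I : Set R} {a b : R} (ha : a ∈ B ∨ a ∈ I) (hb : b ∈ B ∨ b ∈ I) :
    Can B 1 I {a + b} := by
  intro L hL hI
  refine ⟨[a + b], by simp, Valid.add hL ?_ ?_, by simp⟩
  · rcases ha with h | h
    · exact Or.inl h
    · exact hI a h
  · rcases hb with h | h
    · exact Or.inl h
    · exact hI b h

theorem Can.sub {I : Set R} {a b : R} (ha : a ∈ B ∨ a ∈ I) (hb : b ∈ B ∨ b ∈ I) :
    Can B 1 I {a - b} := by
  intro L hL hI
  refine ⟨[a - b], by simp, Valid.sub hL ?_ ?_, by simp⟩
  · rcases ha with h | h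
    · exact Or.inl h
    · exact hI a h
  · rcases hb with h | h
    · exact Or.inl h
    · exact hI b h

theorem Can.mul {I : Set R} {a b : R} (ha : a ∈ B ∨ a ∈ I) (hb : b ∈ B ∨ b ∈ I) :
    Can B 1 I {a * b} := by
  intro L hL hI
  refine ⟨[a * b], by simp, Valid.mul hL ?_ ?_, by simp⟩
  · rcases ha with h | h
    · exact Or.inl h
    · exact hI a h
  · rcases hb with h | h
    · exact Or.inl h
    · exact hI b h

theorem Can.empty (I : Set R) : Can B 0 I ∅ := (Can.refl I).mono le_rfl subset_rfl (by simp)

/-- many independent computations -/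
theorem Can.many {ι : Type*} {T : ℕ} {I : Set R} (s : Finset ι) (O : ι → Set R)
    (h : ∀ i ∈ s, Can B T I (O i)) : Can B (s.card * T) I (⋃ i ∈ s, O i) := by
  classical
  induction s using Finset.induction_on with
  | empty => simpa using Can.empty I
  | insert i s hi ih =>
    have h1 := ih (fun j hj => h j (Finset.mem_insert_of_mem hj))
    have h2 := h i (Finset.mem_insert_self _ _)
    refine (h1.union h2).mono ?_ subset_rfl ?_
    · rw [Finset.card_insert_of_notMem hi]
      ring_nf
      exact le_rfl
    · intro x hx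
      simp only [Finset.mem_insert, Set.mem_iUnion, exists_prop] at hx
      obtain ⟨j, hj | hj, hx⟩ := hx
      · subst hj
        exact Or.inr hx
      · refine Or.inl ?_
        simp only [Set.mem_iUnion, exists_prop]
        exact ⟨j, hj, hx⟩

/-- linear combinations with free coefficients: partial sums -/
theorem Can.lincomb {I : Set R} (n : ℕ) (c a : ℕ → R) (hc : ∀ i < n, c i ∈ B)
    (ha : ∀ i < n, a i ∈ B ∨ a i ∈ I) (h0 : (0 : R) ∈ B) :
    Can B (2 * n) I {∑ i ∈ Finset.range n, c i * a i} := by
  induction n with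
  | zero =>
    intro L hL hI
    refine ⟨[], by simp, by simpa using hL, ?_⟩
    intro x hx
    simp at hx
    subst hx
    exact Or.inl h0
  | succ n ih =>
    have h1 := ih (fun i hi => hc i (by omega)) (fun i hi => ha i (by omega))
    have h2 : Can B 1 I {c n * a n} := Can.mul (Or.inl (hc n (by omega))) (ha n (by omega))
    have h3 := h1.union h2
    have h4 : Can B 1 ({∑ i ∈ Finset.range n, c i * a i} ∪ {c n * a n})
        {(∑ i ∈ Finset.range n, c i * a i) + c n * a n} :=
      Can.add (Or.inr (by simp)) (Or.inr (by simp))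
    have h5 := h3.trans h4
    rw [Finset.sum_range_succ]
    exact h5.le (by omega)

/-- products -/
theorem Can.prod {I : Set R} (n : ℕ) (a : ℕ → R) (ha : ∀ i < n, a i ∈ B ∨ a i ∈ I)
    (h1 : (1 : R) ∈ B) : Can B n I {∏ i ∈ Finset.range n, a i} := by
  induction n with
  | zero =>
    intro L hL hI
    refine ⟨[], by simp, by simpa using hL, ?_⟩
    intro x hx
    simp at hx
    subst hx
    exact Or.inl h1
  | succ n ih =>
    have h2 := ih (fun i hi => ha i (by omega))
    have h3 : Can B 1 (I ∪ {∏ i ∈ Finset.range n, a i}) {(∏ i ∈ Finset.range n, a i) * a n} :=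
      Can.mul (Or.inr (by simp)) (by
        rcases ha n (by omega) with h | h
        · exact Or.inl h
        · exact Or.inr (Or.inl h))
    rw [Finset.prod_range_succ]
    exact (h2.comp h3).mono le_rfl subset_rfl Set.subset_union_right

/-- all powers -/
theorem Can.powers {I : Set R} (n : ℕ) (a : R) (ha : a ∈ B ∨ a ∈ I) (h1 : (1 : R) ∈ B) :
    Can B n I ((fun i : ℕ => a ^ i) '' {i | i ≤ n}) := by
  induction n with
  | zero =>
    intro L hL hI
    refine ⟨[], by simp, by simpa using hL, ?_⟩
    rintro x ⟨i, hi, rfl⟩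
    simp at hi
    subst hi
    simp [h1]
  | succ n ih =>
    have h3 : Can B 1 (I ∪ ((fun i : ℕ => a ^ i) '' {i | i ≤ n})) {a ^ n * a} :=
      Can.mul (Or.inr (Or.inr ⟨n, by simp, rfl⟩)) (by
        rcases ha with h | h
        · exact Or.inl h
        · exact Or.inr (Or.inl h))
    refine (ih.comp h3).mono le_rfl subset_rfl ?_
    rintro x ⟨i, hi, rfl⟩
    simp only [Set.mem_setOf_eq] at hi
    rcases Nat.lt_or_ge n i with h | h
    · have : i = n + 1 := by omega
      subst this
      right
      simp [pow_succ]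
    · left
      exact ⟨i, h, rfl⟩

/-- a single power by repeated squaring -/
theorem Can.pow {I : Set R} (m : ℕ) (a : R) (ha : a ∈ B ∨ a ∈ I) (h1 : (1 : R) ∈ B) :
    Can B (2 * Nat.size m) I {a ^ m} := by
  induction m using Nat.binaryRec' with
  | zero =>
    intro L hL hI
    refine ⟨[], by simp, by simpa using hL, ?_⟩
    intro x hx
    simp at hx
    subst hx
    exact Or.inl h1
  | bit b n hn ih =>
    by_cases hz : Nat.bit b n = 0
    · rw [hz]
      intro L hL hI
      refine ⟨[], by simp, by simpa using hL, ?_⟩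
      intro x hx
      simp at hx
      subst hx
      exact Or.inl h1
    rw [Nat.size_bit hz]
    have h2 : Can B 1 {a ^ n} {a ^ n * a ^ n} := Can.mul (Or.inr rfl) (Or.inr rfl)
    have h3 : Can B (2 * Nat.size n + 1) I {a ^ n * a ^ n} := ih.trans h2
    cases b
    · have e : a ^ Nat.bit false n = a ^ n * a ^ n := by
        rw [← pow_add]; congr 1; simp [Nat.bit]; omega
      rw [e]
      exact h3.le (by omega)
    · have e : a ^ Nat.bit true n = a ^ n * a ^ n * a := by
        rw [← pow_add, ← pow_succ]; congr 1; simp [Nat.bit]; omega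
      rw [e]
      have h4 : Can B 1 (I ∪ {a ^ n * a ^ n}) {a ^ n * a ^ n * a} :=
        Can.mul (Or.inr (by simp)) (by
          rcases ha with h | h
          · exact Or.inl h
          · exact Or.inr (Or.inl h))
      exact (h3.comp h4).mono (by omega) subset_rfl Set.subset_union_right

end H998.LC
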